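import Pool.Agent.EGF.StmtsV

/-!
# Row MAP of the squad EGF: one colouring, all densities `θ`
-/

set_option autoImplicit false

open Finset

namespace Pool.Agent.EGF.H51

open Pool.Agent.EGF

theorem map (sta2 : Sta2Stmt) (clq : ClqStmt) (num : NumStmt) : MapStmt := by
  obtain ⟨A0, hnum⟩ := num
  refine ⟨max A0 10, ?_⟩
  intro θ Q hθ0 hθ1 hQθ k hk hlk V _ c U hsym hno hU
  -- elementary facts
  have hQ : (1024 : ℝ) ≤ Q := by
    refine le_trans ?_ hQθ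
    rw [le_div_iff₀ hθ0]
    nlinarith
  have hQ0 : (0 : ℝ) < Q := by linarith
  have hQn : 1024 ≤ Q := by exact_mod_cast hQ
  have hθQ : 1024 ≤ θ * Q := by
    rw [div_le_iff₀ hθ0] at hQθ
    linarith
  have hpow : ∀ {a b : ℕ}, a ≤ b → (Q : ℝ) ^ a ≤ (Q : ℝ) ^ b := fun {a b} h =>
    pow_le_pow_right₀ (by linarith) h
  have hkA : (Q : ℝ) ^ A0 ≤ k := le_trans (hpow (le_max_left _ _)) hk
  have hk10 : (Q : ℝ) ^ 10 ≤ k := le_trans (hpow (le_max_right _ _)) hk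
  have hk1 : (1 : ℝ) ≤ k := le_trans (one_le_pow₀ (by linarith)) hk10
  have hk1' : 1 ≤ k := by exact_mod_cast hk1
  have hlogU : 1024 * (Q : ℝ) ^ 9 ≤ Real.log U.card := by
    calc 1024 * (Q : ℝ) ^ 9 ≤ (θ * Q) * (Q : ℝ) ^ 9 :=
          mul_le_mul_of_nonneg_right hθQ (by positivity)
      _ = θ * (Q : ℝ) ^ 10 := by rw [mul_assoc, ← pow_succ']
      _ ≤ θ * k := mul_le_mul_of_nonneg_left hk10 hθ0.le
      _ ≤ _ := hU
  have hlogU0 : 0 < Real.log U.card := lt_of_lt_of_le (by positivity) hlogU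
  have hUne : U.Nonempty := by
    rw [Finset.nonempty_iff_ne_empty]
    rintro rfl
    simp at hlogU0
  have hpal : ∀ S : Finset V, ((pal c S).card : ℝ) ≤ k := by
    intro S
    have : (pal c S).card ≤ k := by
      have := Finset.card_le_univ (pal c S)
      rwa [Fintype.card_fin] at this
    exact_mod_cast this
  obtain ⟨s, hs⟩ : ∃ s : ℕ, s = 32 * Q ^ 2 + 1 := ⟨_, rfl⟩
  obtain ⟨s1, hs1⟩ : ∃ s1 : ℕ, s1 = 640 * Q ^ 2 + 2 := ⟨_, rfl⟩
  have hsR : (s : ℝ) = 32 * (Q : ℝ) ^ 2 + 1 := by rw [hs]; push_cast; ring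
  have hs1R : (s1 : ℝ) = 640 * (Q : ℝ) ^ 2 + 2 := by rw [hs1]; push_cast; ring
  have hlogs : Real.log s ≤ Q := by
    have hs0 : (0 : ℝ) < s := by rw [hsR]; positivity
    rw [Real.log_le_iff_le_exp hs0]
    have h1 := Real.pow_div_factorial_le_exp (Q : ℝ) hQ0.le 4
    have h2 : ((Nat.factorial 4 : ℕ) : ℝ) = 24 := by norm_num [Nat.factorial]
    rw [h2] at h1
    refine le_trans ?_ h1
    rw [hsR, le_div_iff₀ (by norm_num)]
    have h3 : (1024 : ℝ) ^ 2 ≤ (Q : ℝ) ^ 2 := pow_le_pow_left₀ (by norm_num) hQ 2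
    nlinarith
  obtain ⟨W, hWU, hWne, -, hF1, hWpal, hWlog⟩ := sta2 V k c θ Q s s1 U hsym hno hθ0 hθ1 hQθ hs
    (by omega) hlk hUne (le_trans (mul_le_mul_of_nonneg_left (hpal U) hθ0.le) hU) (by
      refine le_trans ?_ hlogU
      have h8 : (1024 : ℝ) ^ 8 ≤ (Q : ℝ) ^ 8 := pow_le_pow_left₀ (by norm_num) hQ 8
      have h9 : (Q : ℝ) ^ 9 = Q ^ 8 * Q := by ring
      have h96 : (96 : ℝ) ≤ (Q : ℝ) ^ 8 := le_trans (by norm_num) h8
      have h10 : 96 * (Q : ℝ) ≤ (Q : ℝ) ^ 9 := by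
        rw [h9]
        exact mul_le_mul_of_nonneg_right h96 hQ0.le
      linarith)
  have hN0 : 0 ≤ Real.log (W.card : ℝ) := Real.log_natCast_nonneg _
  have hkQ : (k : ℝ) / Q ≤ Real.log W.card := by
    rw [div_le_iff₀ hQ0]
    have h1 : θ * k ≤ 1024 * Real.log W.card := le_trans hU hWlog
    have h2 : 1024 * (k : ℝ) ≤ 1024 * (Real.log W.card * Q) := by
      calc 1024 * (k : ℝ) ≤ (θ * Q) * k := mul_le_mul_of_nonneg_right hθQ (by linarith)
        _ = (θ * k) * Q := by ring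
        _ ≤ (1024 * Real.log W.card) * Q := mul_le_mul_of_nonneg_right h1 hQ0.le
        _ = _ := by ring
    linarith
  have hpalW : ((pal c W).card : ℝ) ≤ Q * Real.log W.card := by
    have h1 : 1024 * ((pal c W).card : ℝ) ≤ (θ * Q) * ((pal c W).card : ℝ) :=
      mul_le_mul_of_nonneg_right hθQ (by positivity)
    have h2 : (θ / 2 * ((pal c W).card : ℝ)) * Q ≤ Real.log W.card * Q :=
      mul_le_mul_of_nonneg_right hWpal hQ0.le
    have h3 : 0 ≤ Real.log (W.card : ℝ) * Q := mul_nonneg hN0 hQ0.le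
    nlinarith
  obtain ⟨R, κ, B, S0, n1, n2, n3, n4, n5, n6, n7, n8, n9⟩ := hnum Q k hQn hkA hlk
    (Real.log W.card) (1 / (4 * ((640 * Q ^ 2 + 2 : ℕ) : ℝ) ^ 2)) hkQ rfl
  rw [← hs1] at n2 n6 n7 n9
  refine clq V k c W s1 R ((Q : ℝ) ^ 2) (1 / (4 * (s1 : ℝ) ^ 2)) κ B S0 (Q * Real.log W.card)
    hsym ?_ hF1 (by positivity) (by rw [hs1R]; linarith) (by omega) hk1' rfl n1 n2 hpalW n3 n4 n5
    n6 n7 n8 n9
  intro x hx x' hx' y hy y' hy'
  exact hno x (hWU hx) x' (hWU hx') y (hWU hy) y' (hWU hy')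

end Pool.Agent.EGF.H51
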