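import Pool.Agent.EGF.StmtsR

/-!
Row RDD of the squad EGF (block R): the final choice.
-/

set_option autoImplicit false

open Finset

namespace Pool.Agent.EGF.H51

open Pool.Agent.EGF

theorem pal_mono51 {V : Type} [DecidableEq V] {k : ℕ} (c : V → V → Fin k) {W U : Finset V}
    (h : W ⊆ U) : pal c W ⊆ pal c U :=
  image_subset_image (filter_subset_filter _ (product_subset_product h h))

theorem star_mono51 {V : Type} [DecidableEq V] {k : ℕ} (c : V → V → Fin k) {W U : Finset V}
    (h : W ⊆ U) (x : V) : star c W x ⊆ star c U x :=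
  image_subset_image (filter_subset_filter _ h)

theorem rdd : RddStmt := by
  intro V _ k c U X Lo J Z C e y b θ ω hRec hθ hXU hX hω hinj hlog hZ hJ hgood hC
  obtain ⟨hUne, hR⟩ := hRec
  obtain ⟨x, hx, hxs⟩ := Finset.exists_max_image X (fun x => (star c X x).card) hX
  have hsm : smax c X ≤ (star c X x).card := Finset.sup_le (fun z hz => hxs z hz)
  have h1 := hR X hXU hX
  have hpal : ((pal c X).card : ℝ) ≤ (pal c U).card := by
    exact_mod_cast card_le_card (pal_mono51 c hXU)
  have hsm' : (smax c X : ℝ) ≤ (star c X x).card := by exact_mod_cast hsm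
  have hU : ((star c U x).card : ℝ) ≤ smax c U := by
    have : (star c U x).card ≤ smax c U :=
      Finset.le_sup (f := fun x => (star c U x).card) (hXU hx)
    exact_mod_cast this
  have hsub : star c X x ⊆ star c U x := star_mono51 c hXU x
  have hdiff : ((star c U x \ star c X x).card : ℝ) + (star c X x).card = (star c U x).card := by
    exact_mod_cast Finset.card_sdiff_add_card_eq_card hsub
  have hlt : ((star c U x \ star c X x).card : ℝ) < ω / 8 * Lo.card := by
    have h2 : θ * ((star c U x \ star c X x).card : ℝ) < θ * (ω / 8 * Lo.card) := by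
      have h3 : θ * ((star c U x \ star c X x).card : ℝ) ≤
          θ * (((pal c U).card + smax c U) - ((pal c X).card + smax c X)) := by
        apply mul_le_mul_of_nonneg_left _ hθ.le
        linarith
      have h4 : θ * (((pal c U).card + smax c U : ℝ) - ((pal c X).card + smax c X)) ≤
          Real.log U.card - Real.log X.card := by
        have h5 : θ * (((pal c U).card + smax c U : ℝ) - ((pal c X).card + smax c X)) =
          θ * ((pal c U).card + smax c U) - θ * ((pal c X).card + smax c X) := by ring
        rw [h5]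
        linarith
      linarith
    exact lt_of_mul_lt_mul_left h2 hθ.le
  have hF := hgood x hx
  have hex : ∃ l ∈ Lo.filter fun l => c x (y l) = e ∧ b l ∈ star c U x,
      l ∉ ((Lo.filter fun l => b l ∈ star c U x \ star c X x) ∪ (Lo \ J)) ∪ Z := by
    by_contra hcon
    push Not at hcon
    have hb : ((Lo.filter fun l => b l ∈ star c U x \ star c X x).card : ℝ) ≤
        (star c U x \ star c X x).card := by
      have : (Lo.filter fun l => b l ∈ star c U x \ star c X x).card ≤
          (star c U x \ star c X x).card := by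
        refine Finset.card_le_card_of_injOn b ?_ ?_
        · intro l hl
          exact (mem_filter.1 hl).2
        · intro l hl i hi hli
          exact hinj l (mem_filter.1 hl).1 i (mem_filter.1 hi).1 hli
      exact_mod_cast this
    have h3 : (Lo.filter fun l => c x (y l) = e ∧ b l ∈ star c U x).card ≤
        ((Lo.filter fun l => b l ∈ star c U x \ star c X x).card + (Lo \ J).card) + Z.card :=
      (card_le_card hcon).trans
        ((card_union_le _ _).trans (Nat.add_le_add_right (card_union_le _ _) _))
    have h3' : ((Lo.filter fun l => c x (y l) = e ∧ b l ∈ star c U x).card : ℝ) ≤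
        ((Lo.filter fun l => b l ∈ star c U x \ star c X x).card + (Lo \ J).card) + Z.card := by
      exact_mod_cast h3
    have h4 : 0 ≤ ω * (Lo.card : ℝ) := by positivity
    linarith
  obtain ⟨l, hlF, hl⟩ := hex
  rw [mem_filter] at hlF
  obtain ⟨hlLo, hle, hlU⟩ := hlF
  rw [mem_union, mem_union, not_or, not_or] at hl
  obtain ⟨⟨hl1, hl2⟩, hl3⟩ := hl
  have hlX : b l ∈ star c X x := by
    by_contra hcon
    exact hl1 (mem_filter.2 ⟨hlLo, mem_sdiff.2 ⟨hlU, hcon⟩⟩)
  have hlJ : l ∈ J := by
    by_contra hcon
    exact hl2 (mem_sdiff.2 ⟨hlLo, hcon⟩)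
  unfold star at hlX
  rw [mem_image] at hlX
  obtain ⟨z, hz, hzl⟩ := hlX
  rw [mem_filter] at hz
  exact ⟨l, hlLo, hlJ, x, hx, z, hz.1, fun h => hz.2 h.symm, hzl, hle,
    hC z hz.1 l (mem_sdiff.2 ⟨hlLo, hl3⟩)⟩

end Pool.Agent.EGF.H51
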