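import Pool.Agent.EGF.StmtsQ

/-!
Row ROB of the squad EGF: one colour of a bounded set is robust in some sub-rectangle.
-/

set_option autoImplicit false

open Finset

namespace Pool.Agent.EGF.H51

open Pool.Agent.EGF

/-- the induction hypothesis -/
def Pn (j : ℕ) (ρ : ℝ) (n : ℕ) (σ : ℝ) : Prop :=
  ∀ (V : Type) [DecidableEq V] (k : ℕ) (c : V → V → Fin k) (D : Finset (Fin k))
    (A B : Finset V), D.card = n → A.Nonempty → B.Nonempty →
    Reg c D A B (1 / 4 + 2 * (1 / (4 * (j : ℝ))) * ((j : ℝ) - n)) σ →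
  ∃ e ∈ D, ∃ A1 ⊆ A, ∃ B1 ⊆ B, A1.Nonempty ∧ B1.Nonempty ∧ σ * A.card ≤ (A1.card : ℝ) ∧
    σ * B.card ≤ (B1.card : ℝ) ∧ Rob c e A1 B1 ρ (1 / (4 * (j : ℝ)))

theorem Pn.mono {j : ℕ} {ρ : ℝ} {n : ℕ} {σ σ' : ℝ} (h : Pn j ρ n σ) (hs : σ' ≤ σ) :
    Pn j ρ n σ' := by
  intro V _ k c D A B hD hA hB hR
  have hR' : Reg c D A B (1 / 4 + 2 * (1 / (4 * (j : ℝ))) * ((j : ℝ) - n)) σ := by
    intro A' hA' B' hB' h1 h2
    refine hR A' hA' B' hB' ?_ ?_
    · exact (mul_le_mul_of_nonneg_right hs (Nat.cast_nonneg _)).trans h1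
    · exact (mul_le_mul_of_nonneg_right hs (Nat.cast_nonneg _)).trans h2
  obtain ⟨e, he, A1, hA1, B1, hB1, n1, n2, c1, c2, hr⟩ := h V k c D A B hD hA hB hR'
  exact ⟨e, he, A1, hA1, B1, hB1, n1, n2,
    (mul_le_mul_of_nonneg_right hs (Nat.cast_nonneg _)).trans c1,
    (mul_le_mul_of_nonneg_right hs (Nat.cast_nonneg _)).trans c2, hr⟩

theorem Pn.zero (j : ℕ) (ρ : ℝ) : Pn j ρ 0 1 := by
  intro V _ k c D A B hD hA hB hR
  exfalso
  have hD0 : D = ∅ := Finset.card_eq_zero.mp hD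
  subst hD0
  have h := hR A (Subset.refl _) B (Subset.refl _) (by rw [one_mul]) (by rw [one_mul])
  have e1 : ex c (∅ : Finset (Fin k)) A B = A ×ˢ B := by
    unfold ex
    apply Finset.filter_true_of_mem
    intro p _
    exact Finset.notMem_empty _
  rw [e1, card_product] at h
  have ha : (0 : ℝ) < A.card := by exact_mod_cast hA.card_pos
  have hb : (0 : ℝ) < B.card := by exact_mod_cast hB.card_pos
  have hab : (0 : ℝ) < (A.card : ℝ) * B.card := by positivity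
  push_cast at h
  have h2 : (1 : ℝ) / 4 + 2 * (1 / (4 * (j : ℝ))) * ((j : ℝ) - 0) ≤ 3 / 4 := by
    rcases Nat.eq_zero_or_pos j with hj | hj
    · subst hj
      norm_num
    · have hj' : (0 : ℝ) < j := by exact_mod_cast hj
      have : (1 : ℝ) / 4 + 2 * (1 / (4 * (j : ℝ))) * ((j : ℝ) - 0) = 3 / 4 := by
        field_simp
        ring
      rw [this]
  have h3 := mul_le_mul_of_nonneg_right h2 hab.le
  linarith

theorem ex_erase {V : Type} [DecidableEq V] {k : ℕ} (c : V → V → Fin k) (D : Finset (Fin k))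
    (e : Fin k) (A B : Finset V) :
    (ex c (D.erase e) A B).card ≤ (ex c D A B).card + (ex c (univ.erase e) A B).card := by
  refine le_trans (card_le_card ?_) (card_union_le _ _)
  intro p hp
  simp only [ex, mem_filter, mem_product, mem_erase, mem_union, mem_univ, and_true, not_not,
    not_and, ne_eq] at hp ⊢
  by_cases h : c p.1 p.2 = e
  · exact Or.inr ⟨hp.1, h⟩
  · exact Or.inl ⟨hp.1, hp.2 h⟩

theorem ex_univ {V : Type} [DecidableEq V] {k : ℕ} (c : V → V → Fin k)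
    (e : Fin k) (A B : Finset V) :
    ex c (univ.erase e) A B = (A ×ˢ B).filter fun p => c p.1 p.2 = e := by
  ext p
  simp only [ex, mem_filter, mem_product, mem_erase, mem_univ, and_true, not_not, ne_eq]

theorem log_to_card {x y t : ℝ} (hx : 0 < x) (hy : 0 < y) (h : Real.log x - t ≤ Real.log y) :
    x * Real.exp (-t) ≤ y := by
  have h1 := Real.exp_le_exp.mpr h
  rw [Real.exp_log hy, sub_eq_add_neg, Real.exp_add, Real.exp_log hx] at h1
  exact h1

theorem Pn.succ (hreg : Reg2Stmt) {j : ℕ} {ρ : ℝ} (hρ : 0 < ρ) (hρ1 : ρ ≤ 1) {n : ℕ}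
    (hn : n + 1 ≤ j) {σ : ℝ} (hσ : 0 < σ) (hσ1 : σ ≤ 1) (h : Pn j ρ n σ) :
    Pn j ρ (n + 1) (ρ * σ * Real.exp (-(3 / σ ^ 2))) := by
  have hj : (0 : ℝ) < j := by
    have : 0 < j := by omega
    exact_mod_cast this
  have hE0 : 0 < Real.exp (-(3 / σ ^ 2)) := Real.exp_pos _
  have hE1 : Real.exp (-(3 / σ ^ 2)) ≤ 1 := by
    apply Real.exp_le_one_iff.mpr
    have : 0 < 3 / σ ^ 2 := by positivity
    linarith
  have hs1 : ρ * σ * Real.exp (-(3 / σ ^ 2)) ≤ 1 := by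
    calc ρ * σ * Real.exp (-(3 / σ ^ 2)) ≤ 1 * 1 := by
          apply mul_le_mul _ hE1 hE0.le zero_le_one
          calc ρ * σ ≤ 1 * 1 := mul_le_mul hρ1 hσ1 hσ.le zero_le_one
            _ = 1 := one_mul 1
      _ = 1 := one_mul 1
  intro V _ k c D A B hD hA hB hR
  have ha : (0 : ℝ) < A.card := by exact_mod_cast hA.card_pos
  have hb : (0 : ℝ) < B.card := by exact_mod_cast hB.card_pos
  by_cases hex : ∃ e ∈ D, Rob c e A B ρ (1 / (4 * (j : ℝ)))
  · obtain ⟨e, he, hr⟩ := hex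
    refine ⟨e, he, A, Subset.refl _, B, Subset.refl _, hA, hB, ?_, ?_, hr⟩
    · calc ρ * σ * Real.exp (-(3 / σ ^ 2)) * A.card ≤ 1 * A.card :=
            mul_le_mul_of_nonneg_right hs1 ha.le
        _ = A.card := one_mul _
    · calc ρ * σ * Real.exp (-(3 / σ ^ 2)) * B.card ≤ 1 * B.card :=
            mul_le_mul_of_nonneg_right hs1 hb.le
        _ = B.card := one_mul _
  have hDn : D.Nonempty := by
    rw [← Finset.card_pos, hD]
    omega
  obtain ⟨e, he⟩ := hDn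
  have hne : ¬ Rob c e A B ρ (1 / (4 * (j : ℝ))) := fun hh => hex ⟨e, he, hh⟩
  unfold Rob at hne
  push Not at hne
  obtain ⟨A', hA', B', hB', ca, cb, hlt⟩ := hne
  have ha' : (0 : ℝ) < A'.card := lt_of_lt_of_le (by positivity) ca
  have hb' : (0 : ℝ) < B'.card := lt_of_lt_of_le (by positivity) cb
  have hA'n : A'.Nonempty := by
    rw [← Finset.card_pos]
    exact_mod_cast ha'
  have hB'n : B'.Nonempty := by
    rw [← Finset.card_pos]
    exact_mod_cast hb'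
  have hq : 0 < 1 / (4 * (j : ℝ)) := by positivity
  obtain ⟨A2, hA2, B2, hB2, nA2, nB2, lA, lB, hR2⟩ := hreg V k c (univ.erase e) A' B'
    (1 / (4 * (j : ℝ))) (1 / (4 * (j : ℝ))) σ hA'n hB'n hq.le hq hσ
    (by rw [ex_univ]; exact hlt.le)
  have ht : 3 * (1 / (4 * (j : ℝ))) / (1 / (4 * (j : ℝ)) * σ ^ 2) = 3 / σ ^ 2 := by
    field_simp
  rw [ht] at lA lB
  have ha2 : (0 : ℝ) < A2.card := by exact_mod_cast nA2.card_pos
  have hb2 : (0 : ℝ) < B2.card := by exact_mod_cast nB2.card_pos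
  have kA := log_to_card ha' ha2 lA
  have kB := log_to_card hb' hb2 lB
  -- relative sizes
  have sA : ρ * σ * Real.exp (-(3 / σ ^ 2)) * A.card ≤ σ * A2.card := by
    calc ρ * σ * Real.exp (-(3 / σ ^ 2)) * A.card
        = σ * Real.exp (-(3 / σ ^ 2)) * (ρ * A.card) := by ring
      _ ≤ σ * Real.exp (-(3 / σ ^ 2)) * A'.card := mul_le_mul_of_nonneg_left ca (by positivity)
      _ = σ * (A'.card * Real.exp (-(3 / σ ^ 2))) := by ring
      _ ≤ σ * A2.card := mul_le_mul_of_nonneg_left kA hσ.le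
  have sB : ρ * σ * Real.exp (-(3 / σ ^ 2)) * B.card ≤ σ * B2.card := by
    calc ρ * σ * Real.exp (-(3 / σ ^ 2)) * B.card
        = σ * Real.exp (-(3 / σ ^ 2)) * (ρ * B.card) := by ring
      _ ≤ σ * Real.exp (-(3 / σ ^ 2)) * B'.card := mul_le_mul_of_nonneg_left cb (by positivity)
      _ = σ * (B'.card * Real.exp (-(3 / σ ^ 2))) := by ring
      _ ≤ σ * B2.card := mul_le_mul_of_nonneg_left kB hσ.le
  have hRe : Reg c (D.erase e) A2 B2 (1 / 4 + 2 * (1 / (4 * (j : ℝ))) * ((j : ℝ) - n)) σ := by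
    intro A3 hA3 B3 hB3 h3a h3b
    have e1 := hR A3 ((hA3.trans hA2).trans hA') B3 ((hB3.trans hB2).trans hB')
      (sA.trans h3a) (sB.trans h3b)
    have e2 := hR2 A3 hA3 B3 hB3 h3a h3b
    have e3 : ((ex c (D.erase e) A3 B3).card : ℝ) ≤
        (ex c D A3 B3).card + (ex c (univ.erase e) A3 B3).card := by
      exact_mod_cast ex_erase c D e A3 B3
    push_cast at e1
    calc ((ex c (D.erase e) A3 B3).card : ℝ)
        ≤ (ex c D A3 B3).card + (ex c (univ.erase e) A3 B3).card := e3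
      _ ≤ (1 / 4 + 2 * (1 / (4 * (j : ℝ))) * ((j : ℝ) - (n + 1))) * (A3.card * B3.card) +
          (1 / (4 * (j : ℝ)) + 1 / (4 * (j : ℝ))) * (A3.card * B3.card) := add_le_add e1 e2
      _ = (1 / 4 + 2 * (1 / (4 * (j : ℝ))) * ((j : ℝ) - n)) * (A3.card * B3.card) := by ring
  have hDe : (D.erase e).card = n := by
    rw [Finset.card_erase_of_mem he, hD]
    omega
  obtain ⟨e', he', A1, hA1, B1, hB1, n1, n2, c1, c2, hr⟩ :=
    h V k c (D.erase e) A2 B2 hDe nA2 nB2 hRe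
  exact ⟨e', Finset.mem_of_mem_erase he', A1, (hA1.trans hA2).trans hA', B1,
    (hB1.trans hB2).trans hB', n1, n2, sA.trans c1, sB.trans c2, hr⟩

theorem Pn.all (hreg : Reg2Stmt) {j : ℕ} {ρ : ℝ} (hρ : 0 < ρ) (hρ1 : ρ ≤ 1) (m : ℕ)
    (hm : m ≤ j) : ∃ σ : ℝ, 0 < σ ∧ σ ≤ 1 ∧ ∀ n ≤ m, Pn j ρ n σ := by
  induction m with
  | zero =>
    refine ⟨1, one_pos, le_refl _, ?_⟩
    intro n hn
    have : n = 0 := by omega
    subst this
    exact Pn.zero j ρ
  | succ m ih =>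
    obtain ⟨σ, hσ, hσ1, hall⟩ := ih (by omega)
    have hE0 : 0 < Real.exp (-(3 / σ ^ 2)) := Real.exp_pos _
    have hE1 : Real.exp (-(3 / σ ^ 2)) ≤ 1 := by
      apply Real.exp_le_one_iff.mpr
      have : 0 < 3 / σ ^ 2 := by positivity
      linarith
    have hle : ρ * σ * Real.exp (-(3 / σ ^ 2)) ≤ σ := by
      calc ρ * σ * Real.exp (-(3 / σ ^ 2)) ≤ (1 * σ) * 1 := by
            apply mul_le_mul (mul_le_mul_of_nonneg_right hρ1 hσ.le) hE1 hE0.le
            positivity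
        _ = σ := by ring
    refine ⟨ρ * σ * Real.exp (-(3 / σ ^ 2)), by positivity, hle.trans hσ1, ?_⟩
    intro n hn
    rcases Nat.lt_or_ge n (m + 1) with hlt | hge
    · exact (hall n (by omega)).mono hle
    · have : n = m + 1 := by omega
      subst this
      exact Pn.succ hreg hρ hρ1 hm hσ hσ1 (hall m (le_refl _))

theorem rob (hreg : Reg2Stmt) : RobStmt := by
  intro j ρ hρ hρ1
  obtain ⟨σ, hσ, hσ1, hall⟩ := Pn.all hreg hρ hρ1 j (le_refl _)
  refine ⟨σ, hσ, hσ1, ?_⟩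
  intro V _ k c C0 A B hC hA hB hR
  refine hall C0.card hC V k c C0 A B rfl hA hB ?_
  intro A' hA' B' hB' h1 h2
  refine (hR A' hA' B' hB' h1 h2).trans ?_
  apply mul_le_mul_of_nonneg_right _ (by positivity)
  have hc : (C0.card : ℝ) ≤ j := by exact_mod_cast hC
  have : 0 ≤ 2 * (1 / (4 * (j : ℝ))) * ((j : ℝ) - C0.card) := by
    apply mul_nonneg (by positivity)
    linarith
  linarith

end Pool.Agent.EGF.H51
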